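import Mathlib

open scoped Classical

namespace Pool.Agent.Results.MP_36f34d_co.LowerFiveThirds

/-- Euclidean three-space. -/
abbrev E3 := EuclideanSpace ℝ (Fin 3)

/-- A tetrahedron is a four-element set of points of three-space that does not lie in a plane. -/
def IsTetra (T : Finset E3) : Prop :=
  T.card = 4 ∧ ¬ Coplanar ℝ (T : Set E3)

/-- `S` is similar to `T`: it is the image of `T` under the composition of a scaling by some
`r > 0` and an isometry of three-space. -/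
def Similar (T S : Finset E3) : Prop :=
  ∃ (r : ℝ) (g : E3 ≃ᵢ E3), 0 < r ∧ (S : Set E3) = (fun x : E3 => g (r • x)) '' (T : Set E3)

/-- `s(P, T)`: the number of four-element subsets of `P` that are tetrahedra similar to `T`. -/
noncomputable def simCount (P T : Finset E3) : ℕ :=
  ((P.powersetCard 4).filter (fun S => IsTetra S ∧ Similar T S)).card

/-- `f(n)`: the maximum of `s(P, T)` over all `n`-point sets `P` and all tetrahedra `T`. -/
noncomputable def f (n : ℕ) : ℕ :=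
  sSup {k : ℕ | ∃ P T : Finset E3, P.card = n ∧ IsTetra T ∧ k = simCount P T}

/-! ### Embedding of integer points -/

/-- The point with integer coordinates. -/
noncomputable def emb (x : ℤ × ℤ × ℤ) : E3 := !₂[(x.1 : ℝ), (x.2.1 : ℝ), (x.2.2 : ℝ)]

theorem emb_inj : Function.Injective emb := by
  rintro ⟨x, y, z⟩ ⟨x', y', z'⟩ h
  have h0 := congrArg (fun v : E3 => v 0) h
  have h1 := congrArg (fun v : E3 => v 1) h
  have h2 := congrArg (fun v : E3 => v 2) h
  simp [emb] at h0 h1 h2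
  simp [h0, h1, h2]

/-- first column of the quaternion rotation matrix -/
def U (a b c d : ℤ) : ℤ × ℤ × ℤ :=
  (a ^ 2 + b ^ 2 - c ^ 2 - d ^ 2, 2 * (b * c + a * d), 2 * (b * d - a * c))
/-- second column of the quaternion rotation matrix -/
def V (a b c d : ℤ) : ℤ × ℤ × ℤ :=
  (2 * (b * c - a * d), a ^ 2 - b ^ 2 + c ^ 2 - d ^ 2, 2 * (c * d + a * b))
/-- third column of the quaternion rotation matrix -/
def W (a b c d : ℤ) : ℤ × ℤ × ℤ :=
  (2 * (b * d + a * c), 2 * (c * d - a * b), a ^ 2 - b ^ 2 - c ^ 2 + d ^ 2)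

/-- The corner at `p` spanned by the three columns. -/
def corner (p : ℤ × ℤ × ℤ) (a b c d : ℤ) : Finset (ℤ × ℤ × ℤ) :=
  {p, p + U a b c d, p + V a b c d, p + W a b c d}

/-- Index set of base points and quaternions. -/
abbrev Idx := (ℕ × ℕ × ℕ) × (ℕ × ℕ × ℕ × ℕ)

/-- base point of an index -/
def base (m : ℕ) (i : Idx) : ℤ × ℤ × ℤ :=
  (10 * (m : ℤ) ^ 2 + i.1.1, 10 * (m : ℤ) ^ 2 + i.1.2.1, 10 * (m : ℤ) ^ 2 + i.1.2.2)

/-- The corner of an index. -/
def cor (m : ℕ) (i : Idx) : Finset (ℤ × ℤ × ℤ) :=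
  corner (base m i) (4 * (m : ℤ) + i.2.1) i.2.2.1 i.2.2.2.1 i.2.2.2.2

/-- The finite set of indices. -/
def idx (m : ℕ) : Finset Idx :=
  (Finset.range (50 * m ^ 2) ×ˢ Finset.range (50 * m ^ 2) ×ˢ Finset.range (50 * m ^ 2)) ×ˢ
  (Finset.range m ×ˢ Finset.range m ×ˢ Finset.range m ×ˢ Finset.range m)

theorem card_idx (m : ℕ) : (idx m).card = 125000 * m ^ 10 := by
  simp [idx]
  ring

theorem bounds {m a b c d : ℤ} (hm : 0 < m) (ha : 4 * m ≤ a) (ha' : a < 5 * m)
    (hb : 0 ≤ b) (hb' : b < m) (hc : 0 ≤ c) (hc' : c < m) (hd : 0 ≤ d) (hd' : d < m) :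
    (14 * m ^ 2 ≤ (U a b c d).1 ∧ (U a b c d).1 ≤ 26 * m ^ 2) ∧
    (0 ≤ (U a b c d).2.1 ∧ (U a b c d).2.1 ≤ 12 * m ^ 2) ∧
    (-(10 * m ^ 2) ≤ (U a b c d).2.2 ∧ (U a b c d).2.2 ≤ 2 * m ^ 2) ∧
    (-(10 * m ^ 2) ≤ (V a b c d).1 ∧ (V a b c d).1 ≤ 2 * m ^ 2) ∧
    (14 * m ^ 2 ≤ (V a b c d).2.1 ∧ (V a b c d).2.1 ≤ 26 * m ^ 2) ∧
    (0 ≤ (V a b c d).2.2 ∧ (V a b c d).2.2 ≤ 12 * m ^ 2) ∧
    (0 ≤ (W a b c d).1 ∧ (W a b c d).1 ≤ 12 * m ^ 2) ∧
    (-(10 * m ^ 2) ≤ (W a b c d).2.1 ∧ (W a b c d).2.1 ≤ 2 * m ^ 2) ∧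
    (14 * m ^ 2 ≤ (W a b c d).2.2 ∧ (W a b c d).2.2 ≤ 26 * m ^ 2) := by
  have haa : 16 * m ^ 2 ≤ a ^ 2 := by nlinarith
  have haa' : a ^ 2 ≤ 25 * m ^ 2 := by nlinarith
  have hbb : 0 ≤ b ^ 2 := by positivity
  have hbb' : b ^ 2 ≤ m ^ 2 := by nlinarith
  have hcc : 0 ≤ c ^ 2 := by positivity
  have hcc' : c ^ 2 ≤ m ^ 2 := by nlinarith
  have hdd : 0 ≤ d ^ 2 := by positivity
  have hdd' : d ^ 2 ≤ m ^ 2 := by nlinarith
  have hab : 0 ≤ a * b := by nlinarith
  have hab' : a * b ≤ 5 * m ^ 2 := by nlinarith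
  have hac : 0 ≤ a * c := by nlinarith
  have hac' : a * c ≤ 5 * m ^ 2 := by nlinarith
  have had : 0 ≤ a * d := by nlinarith
  have had' : a * d ≤ 5 * m ^ 2 := by nlinarith
  have hbc : 0 ≤ b * c := by positivity
  have hbc' : b * c ≤ m ^ 2 := by nlinarith
  have hbd : 0 ≤ b * d := by positivity
  have hbd' : b * d ≤ m ^ 2 := by nlinarith
  have hcd : 0 ≤ c * d := by positivity
  have hcd' : c * d ≤ m ^ 2 := by nlinarith
  simp only [U, V, W]
  refine ⟨⟨?_, ?_⟩, ⟨?_, ?_⟩, ⟨?_, ?_⟩, ⟨?_, ?_⟩, ⟨?_, ?_⟩, ⟨?_, ?_⟩, ⟨?_, ?_⟩, ⟨?_, ?_⟩,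
    ⟨?_, ?_⟩⟩ <;> linarith

/-- The four quaternion coordinates are determined by the three columns. -/
theorem quat_inj {a b c d a' b' c' d' : ℤ} (ha : 0 < a) (ha' : 0 < a') (hb : 0 ≤ b)
    (hb' : 0 ≤ b')
    (hU : U a b c d = U a' b' c' d') (hV : V a b c d = V a' b' c' d')
    (hW : W a b c d = W a' b' c' d') : a = a' ∧ b = b' ∧ c = c' ∧ d = d' := by
  simp only [U, V, W, Prod.mk.injEq] at hU hV hW
  obtain ⟨u0, u1, u2⟩ := hU
  obtain ⟨v0, v1, v2⟩ := hV
  obtain ⟨w0, w1, w2⟩ := hW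
  have hab : a * b = a' * b' := by linarith
  have hac : a * c = a' * c' := by linarith
  have had : a * d = a' * d' := by linarith
  have hsq : a ^ 2 - b ^ 2 = a' ^ 2 - b' ^ 2 := by linarith
  have haa : a = a' := by
    rcases lt_trichotomy a a' with h | h | h
    · exfalso
      have h1 : b' ≤ b := by
        by_contra hlt
        push Not at hlt
        nlinarith
      nlinarith
    · exact h
    · exfalso
      have h1 : b ≤ b' := by
        by_contra hlt
        push Not at hlt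
        nlinarith
      nlinarith
  subst haa
  have hne : a ≠ 0 := ne_of_gt ha
  exact ⟨rfl, mul_left_cancel₀ hne hab, mul_left_cancel₀ hne hac, mul_left_cancel₀ hne had⟩

theorem corner_inj {m : ℤ} (hm : 0 < m) {p p' : ℤ × ℤ × ℤ} {a b c d a' b' c' d' : ℤ}
    (ha : 4 * m ≤ a) (ha1 : a < 5 * m)
    (hb : 0 ≤ b) (hb1 : b < m) (hc : 0 ≤ c) (hc1 : c < m) (hd : 0 ≤ d) (hd1 : d < m)
    (ha' : 4 * m ≤ a') (ha1' : a' < 5 * m)
    (hb' : 0 ≤ b') (hb1' : b' < m) (hc' : 0 ≤ c') (hc1' : c' < m) (hd' : 0 ≤ d') (hd1' : d' < m)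
    (h : corner p a b c d = corner p' a' b' c' d') :
    p = p' ∧ a = a' ∧ b = b' ∧ c = c' ∧ d = d' := by
  have B := bounds hm ha ha1 hb hb1 hc hc1 hd hd1
  have B' := bounds hm ha' ha1' hb' hb1' hc' hc1' hd' hd1'
  have hm2 : 0 < m ^ 2 := by positivity
  generalize hu : U a b c d = u at *
  generalize hv : V a b c d = v at *
  generalize hw : W a b c d = w at *
  generalize hu' : U a' b' c' d' = u' at *
  generalize hv' : V a' b' c' d' = v' at *
  generalize hw' : W a' b' c' d' = w' at *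
  obtain ⟨⟨b1, b2⟩, ⟨b3, b4⟩, ⟨b5, b6⟩, ⟨b7, b8⟩, ⟨b9, b10⟩, ⟨b11, b12⟩, ⟨b13, b14⟩,
    ⟨b15, b16⟩, ⟨b17, b18⟩⟩ := B
  obtain ⟨⟨c1, c2⟩, ⟨c3, c4⟩, ⟨c5, c6⟩, ⟨c7, c8⟩, ⟨c9, c10⟩, ⟨c11, c12⟩, ⟨c13, c14⟩,
    ⟨c15, c16⟩, ⟨c17, c18⟩⟩ := B'
  have e1 : p ∈ corner p' a' b' c' d' := by rw [← h]; simp [corner]
  have e2 : p' ∈ corner p a b c d := by rw [h]; simp [corner]
  have e3 : p + u ∈ corner p' a' b' c' d' := by rw [← h]; simp [corner, hu]
  have e4 : p + v ∈ corner p' a' b' c' d' := by rw [← h]; simp [corner, hv]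
  have e5 : p + w ∈ corner p' a' b' c' d' := by rw [← h]; simp [corner, hw]
  simp only [corner, hu, hv, hw, hu', hv', hw', Finset.mem_insert, Finset.mem_singleton,
    Prod.ext_iff, Prod.fst_add, Prod.snd_add] at e1 e2 e3 e4 e5
  generalize m ^ 2 = M at *
  have hp : p = p' := by
    simp only [Prod.ext_iff]
    omega
  subst hp
  have hU : u = u' := by
    simp only [Prod.ext_iff]
    omega
  have hV : v = v' := by
    simp only [Prod.ext_iff]
    omega
  have hW : w = w' := by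
    simp only [Prod.ext_iff]
    omega
  refine ⟨rfl, ?_⟩
  apply quat_inj (by linarith) (by linarith) hb hb'
  · rw [hu, hu', hU]
  · rw [hv, hv', hV]
  · rw [hw, hw', hW]

theorem cor_inj (m : ℕ) (hm : 0 < m) : Set.InjOn (cor m) (↑(idx m) : Set Idx) := by
  intro i hi j hj h
  simp only [idx, Finset.coe_product, Finset.coe_range, Set.mem_prod, Set.mem_Iio] at hi hj
  have hm' : (0 : ℤ) < m := by exact_mod_cast hm
  have := corner_inj hm' (p := base m i) (p' := base m j) (a := 4 * (m : ℤ) + i.2.1)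
    (b := i.2.2.1) (c := i.2.2.2.1) (d := i.2.2.2.2) (a' := 4 * (m : ℤ) + j.2.1)
    (b' := j.2.2.1) (c' := j.2.2.2.1) (d' := j.2.2.2.2)
    (by omega) (by omega) (by omega) (by omega) (by omega) (by omega) (by omega) (by omega)
    (by omega) (by omega) (by omega) (by omega) (by omega) (by omega) (by omega) (by omega) h
  simp only [base, Prod.ext_iff] at this
  obtain ⟨⟨i1, i2, i3⟩, ⟨i4, i5, i6, i7⟩⟩ := i
  obtain ⟨⟨j1, j2, j3⟩, ⟨j4, j5, j6, j7⟩⟩ := j
  simp only at this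
  simp only [Prod.ext_iff]
  omega

/-- The integer box. -/
noncomputable def box (m : ℕ) : Finset (ℤ × ℤ × ℤ) :=
  Finset.Ico 0 (100 * (m : ℤ) ^ 2) ×ˢ Finset.Ico 0 (100 * (m : ℤ) ^ 2) ×ˢ
    Finset.Ico 0 (100 * (m : ℤ) ^ 2)

theorem card_box (m : ℕ) : (box m).card = 10 ^ 6 * m ^ 6 := by
  have : (100 * (m : ℤ) ^ 2).toNat = 100 * m ^ 2 := by
    have : (100 * (m : ℤ) ^ 2) = ((100 * m ^ 2 : ℕ) : ℤ) := by push_cast; ring
    rw [this, Int.toNat_natCast]
  simp [box, this]
  ring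

theorem cor_sub_box (m : ℕ) (hm : 0 < m) {i : Idx} (hi : i ∈ idx m) : cor m i ⊆ box m := by
  simp only [idx, Finset.mem_product, Finset.mem_range] at hi
  have hm' : (0 : ℤ) < m := by exact_mod_cast hm
  have B := bounds hm' (a := 4 * (m : ℤ) + i.2.1) (b := i.2.2.1) (c := i.2.2.2.1)
    (d := i.2.2.2.2) (by omega) (by omega) (by omega) (by omega) (by omega) (by omega)
    (by omega) (by omega)
  have hm2 : 0 < (m : ℤ) ^ 2 := by positivity
  have k1 : (i.1.1 : ℤ) < 50 * (m : ℤ) ^ 2 := by exact_mod_cast hi.1.1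
  have k2 : (i.1.2.1 : ℤ) < 50 * (m : ℤ) ^ 2 := by exact_mod_cast hi.1.2.1
  have k3 : (i.1.2.2 : ℤ) < 50 * (m : ℤ) ^ 2 := by exact_mod_cast hi.1.2.2
  intro x hx
  simp only [cor, corner, Finset.mem_insert, Finset.mem_singleton, base] at hx
  simp only [box, Finset.mem_product, Finset.mem_Ico]
  generalize (m : ℤ) ^ 2 = M at *
  generalize U (4 * (m : ℤ) + i.2.1) i.2.2.1 i.2.2.2.1 i.2.2.2.2 = u at *
  generalize V (4 * (m : ℤ) + i.2.1) i.2.2.1 i.2.2.2.1 i.2.2.2.2 = v at *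
  generalize W (4 * (m : ℤ) + i.2.1) i.2.2.1 i.2.2.2.1 i.2.2.2.2 = w at *
  simp only [Prod.ext_iff, Prod.fst_add, Prod.snd_add] at hx
  omega

/-! ### Geometry -/

theorem inner_emb (x y : ℤ × ℤ × ℤ) :
    inner ℝ (emb x) (emb y) = (x.1 : ℝ) * y.1 + x.2.1 * y.2.1 + x.2.2 * y.2.2 := by
  simp [emb, PiLp.inner_apply, Fin.sum_univ_three]
  ring

theorem emb_add (x y : ℤ × ℤ × ℤ) : emb (x + y) = emb x + emb y := by
  ext i
  fin_cases i <;> simp [emb]

theorem emb_zero : emb (0, 0, 0) = 0 := by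
  ext i
  fin_cases i <;> simp [emb]

theorem emb_e0 : emb (1, 0, 0) = EuclideanSpace.single 0 1 := by
  ext i
  fin_cases i <;> simp [emb]

theorem emb_e1 : emb (0, 1, 0) = EuclideanSpace.single 1 1 := by
  ext i
  fin_cases i <;> simp [emb]

theorem emb_e2 : emb (0, 0, 1) = EuclideanSpace.single 2 1 := by
  ext i
  fin_cases i <;> simp [emb]

theorem exists_isom {u v w : E3} {N : ℝ} (hN : 0 < N)
    (huu : inner ℝ u u = N ^ 2) (hvv : inner ℝ v v = N ^ 2) (hww : inner ℝ w w = N ^ 2)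
    (huv : inner ℝ u v = 0) (huw : inner ℝ u w = 0) (hvw : inner ℝ v w = 0) :
    ∃ A : E3 ≃ₗᵢ[ℝ] E3, A (N • emb (1, 0, 0)) = u ∧ A (N • emb (0, 1, 0)) = v ∧
      A (N • emb (0, 0, 1)) = w := by
  have hvu : inner ℝ v u = 0 := by rw [real_inner_comm]; exact huv
  have hwu : inner ℝ w u = 0 := by rw [real_inner_comm]; exact huw
  have hwv : inner ℝ w v = 0 := by rw [real_inner_comm]; exact hvw
  have hN0 : N ≠ 0 := ne_of_gt hN
  let F : Fin 3 → E3 := ![N⁻¹ • u, N⁻¹ • v, N⁻¹ • w]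
  have hon : Orthonormal ℝ F := by
    rw [orthonormal_iff_ite]
    intro i j
    fin_cases i <;> fin_cases j <;>
      simp only [F, Fin.zero_eta, Fin.mk_one, Fin.reduceFinMk, Matrix.cons_val_zero,
        Matrix.cons_val_one, Matrix.cons_val, inner_smul_left, inner_smul_right, huu, hvv, hww,
        huv, huw, hvw, hvu, hwu, hwv, map_inv₀, conj_trivial, mul_zero] <;>
      first
      | (simp; done)
      | (rw [if_pos trivial]; field_simp)
  have hspan : ⊤ ≤ Submodule.span ℝ (Set.range F) := by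
    rw [hon.linearIndependent.span_eq_top_of_card_eq_finrank' (by simp)]
  let b := OrthonormalBasis.mk hon hspan
  have hA : ∀ i, (EuclideanSpace.basisFun (Fin 3) ℝ).equiv b (Equiv.refl _)
      (EuclideanSpace.single i 1) = F i := by
    intro i
    have := OrthonormalBasis.equiv_apply_basis (EuclideanSpace.basisFun (Fin 3) ℝ) b
      (Equiv.refl _) i
    rw [EuclideanSpace.basisFun_apply] at this
    rw [this]
    simp [b]
  refine ⟨(EuclideanSpace.basisFun (Fin 3) ℝ).equiv b (Equiv.refl _), ?_, ?_, ?_⟩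
  · rw [map_smul, emb_e0, hA]
    simp [F, smul_smul, hN0]
  · rw [map_smul, emb_e1, hA]
    simp [F, smul_smul, hN0]
  · rw [map_smul, emb_e2, hA]
    simp [F, smul_smul, hN0]

/-- The tetrahedron formed by the origin and the standard basis vectors. -/
noncomputable def T0 : Finset E3 :=
  ({(0, 0, 0), (1, 0, 0), (0, 1, 0), (0, 0, 1)} : Finset (ℤ × ℤ × ℤ)).image emb

theorem similar_corner (p : ℤ × ℤ × ℤ) {a b c d : ℤ} (h : 0 < a) :
    Similar T0 ((corner p a b c d).image emb) := by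
  have hN : (0 : ℝ) < (a : ℝ) ^ 2 + b ^ 2 + c ^ 2 + d ^ 2 := by
    have : (0 : ℝ) < a := by exact_mod_cast h
    positivity
  obtain ⟨A, hA0, hA1, hA2⟩ := exists_isom (u := emb (U a b c d)) (v := emb (V a b c d))
    (w := emb (W a b c d)) hN
    (by rw [inner_emb]; simp only [U]; push_cast; ring)
    (by rw [inner_emb]; simp only [V]; push_cast; ring)
    (by rw [inner_emb]; simp only [W]; push_cast; ring)
    (by rw [inner_emb]; simp only [U, V]; push_cast; ring)
    (by rw [inner_emb]; simp only [U, W]; push_cast; ring)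
    (by rw [inner_emb]; simp only [V, W]; push_cast; ring)
  refine ⟨(a : ℝ) ^ 2 + b ^ 2 + c ^ 2 + d ^ 2,
    A.toIsometryEquiv.trans (IsometryEquiv.addRight (emb p)), hN, ?_⟩
  simp only [T0, corner, Finset.coe_image, Finset.coe_insert, Finset.coe_singleton,
    Set.image_insert_eq, Set.image_singleton, IsometryEquiv.trans_apply,
    LinearIsometryEquiv.coe_toIsometryEquiv, IsometryEquiv.addRight_apply, hA0, hA1, hA2,
    emb_zero, smul_zero, map_zero, zero_add, emb_add]
  simp only [add_comm]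

theorem not_coplanar_corner (p : ℤ × ℤ × ℤ) {a b c d : ℤ} (h : 0 < a) :
    ¬ Coplanar ℝ (((corner p a b c d).image emb : Finset E3) : Set E3) := by
  intro hcop
  have hN : (0 : ℝ) < (a : ℝ) ^ 2 + b ^ 2 + c ^ 2 + d ^ 2 := by
    have : (0 : ℝ) < a := by exact_mod_cast h
    positivity
  have huu : inner ℝ (emb (U a b c d)) (emb (U a b c d)) =
    ((a : ℝ) ^ 2 + b ^ 2 + c ^ 2 + d ^ 2) ^ 2 := by rw [inner_emb]; simp only [U]; push_cast; ring
  have hvv : inner ℝ (emb (V a b c d)) (emb (V a b c d)) =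
    ((a : ℝ) ^ 2 + b ^ 2 + c ^ 2 + d ^ 2) ^ 2 := by rw [inner_emb]; simp only [V]; push_cast; ring
  have hww : inner ℝ (emb (W a b c d)) (emb (W a b c d)) =
    ((a : ℝ) ^ 2 + b ^ 2 + c ^ 2 + d ^ 2) ^ 2 := by rw [inner_emb]; simp only [W]; push_cast; ring
  have huv : inner ℝ (emb (U a b c d)) (emb (V a b c d)) = 0 := by
    rw [inner_emb]; simp only [U, V]; push_cast; ring
  have huw : inner ℝ (emb (U a b c d)) (emb (W a b c d)) = 0 := by
    rw [inner_emb]; simp only [U, W]; push_cast; ring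
  have hvw : inner ℝ (emb (V a b c d)) (emb (W a b c d)) = 0 := by
    rw [inner_emb]; simp only [V, W]; push_cast; ring
  set S : Set E3 := (((corner p a b c d).image emb : Finset E3) : Set E3) with hS
  -- the span of the differences is everything
  have hp : emb p ∈ S := by simp [hS, corner]
  have hpu : emb p + emb (U a b c d) ∈ S := by simp [hS, corner, emb_add]
  have hpv : emb p + emb (V a b c d) ∈ S := by simp [hS, corner, emb_add]
  have hpw : emb p + emb (W a b c d) ∈ S := by simp [hS, corner, emb_add]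
  have mu : emb (U a b c d) ∈ vectorSpan ℝ S := by
    have := vsub_mem_vectorSpan ℝ hpu hp
    simpa using this
  have mv : emb (V a b c d) ∈ vectorSpan ℝ S := by
    have := vsub_mem_vectorSpan ℝ hpv hp
    simpa using this
  have mw : emb (W a b c d) ∈ vectorSpan ℝ S := by
    have := vsub_mem_vectorSpan ℝ hpw hp
    simpa using this
  let F : Fin 3 → E3 := ![emb (U a b c d), emb (V a b c d), emb (W a b c d)]
  have hli : LinearIndependent ℝ F := by
    apply linearIndependent_of_ne_zero_of_inner_eq_zero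
    · intro i
      have key : ∀ x : E3, inner ℝ x x = ((a : ℝ) ^ 2 + b ^ 2 + c ^ 2 + d ^ 2) ^ 2 → x ≠ 0 := by
        rintro x hx rfl
        rw [inner_zero_left] at hx
        have : 0 < ((a : ℝ) ^ 2 + b ^ 2 + c ^ 2 + d ^ 2) ^ 2 := by positivity
        linarith
      fin_cases i
      · exact key _ huu
      · exact key _ hvv
      · exact key _ hww
    · intro i j hij
      fin_cases i <;> fin_cases j <;> first
        | (exact absurd rfl hij)
        | (exact huv)
        | (exact huw)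
        | (exact hvw)
        | (rw [real_inner_comm]; exact huv)
        | (rw [real_inner_comm]; exact huw)
        | (rw [real_inner_comm]; exact hvw)
  have hspan : ⊤ ≤ Submodule.span ℝ (Set.range F) := by
    rw [hli.span_eq_top_of_card_eq_finrank' (by simp)]
  have hle : Submodule.span ℝ (Set.range F) ≤ vectorSpan ℝ S := by
    rw [Submodule.span_le]
    rintro _ ⟨i, rfl⟩
    fin_cases i
    · exact mu
    · exact mv
    · exact mw
  have htop : vectorSpan ℝ S = ⊤ := top_le_iff.1 (hspan.trans hle)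
  have hfr := hcop.finrank_le_two
  rw [htop, finrank_top, finrank_euclideanSpace] at hfr
  simp at hfr

theorem card_corner {m : ℤ} (hm : 0 < m) {p : ℤ × ℤ × ℤ} {a b c d : ℤ}
    (ha : 4 * m ≤ a) (ha1 : a < 5 * m)
    (hb : 0 ≤ b) (hb1 : b < m) (hc : 0 ≤ c) (hc1 : c < m) (hd : 0 ≤ d) (hd1 : d < m) :
    (corner p a b c d).card = 4 := by
  have B := bounds hm ha ha1 hb hb1 hc hc1 hd hd1
  have hm2 : 0 < m ^ 2 := by positivity
  generalize hu : U a b c d = u at *
  generalize hv : V a b c d = v at *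
  generalize hw : W a b c d = w at *
  generalize m ^ 2 = M at *
  rw [corner, hu, hv, hw]
  rw [Finset.card_insert_of_notMem, Finset.card_insert_of_notMem, Finset.card_insert_of_notMem,
    Finset.card_singleton]
  · simp only [Finset.mem_singleton, Prod.ext_iff, Prod.fst_add, Prod.snd_add]
    omega
  · simp only [Finset.mem_insert, Finset.mem_singleton, Prod.ext_iff, Prod.fst_add, Prod.snd_add]
    omega
  · simp only [Finset.mem_insert, Finset.mem_singleton, Prod.ext_iff, Prod.fst_add, Prod.snd_add]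
    omega

theorem T0_eq : T0 = (corner (0, 0, 0) 1 0 0 0).image emb := by
  rfl

theorem isTetra_T0 : IsTetra T0 := by
  refine ⟨?_, ?_⟩
  · rw [T0, Finset.card_image_of_injective _ emb_inj]
    decide
  · rw [T0_eq]
    exact not_coplanar_corner _ one_pos

/-- The main count. -/
theorem simCount_lower (m : ℕ) (hm : 0 < m) (P : Finset E3) (hP : (box m).image emb ⊆ P) :
    125000 * m ^ 10 ≤ simCount P T0 := by
  rw [← card_idx m, simCount]
  apply Finset.card_le_card_of_injOn (fun i => (cor m i).image emb)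
  · intro i hi
    have hi' := hi
    simp only [idx, Finset.coe_product, Finset.coe_range, Set.mem_prod, Set.mem_Iio] at hi'
    have hm' : (0 : ℤ) < m := by exact_mod_cast hm
    have hc4 : ((cor m i).image emb).card = 4 := by
      rw [Finset.card_image_of_injective _ emb_inj]
      exact card_corner hm' (by omega) (by omega) (by omega) (by omega) (by omega) (by omega)
        (by omega) (by omega)
    simp only [Finset.coe_filter, Finset.mem_powersetCard, Set.mem_ofPred_eq]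
    refine ⟨⟨?_, hc4⟩, ⟨hc4, ?_⟩, ?_⟩
    · exact (Finset.image_subset_image (cor_sub_box m hm hi)).trans hP
    · exact not_coplanar_corner _ (by omega)
    · exact similar_corner _ (by omega)
  · intro i hi j hj h
    exact cor_inj m hm hi hj (Finset.image_injective emb_inj h)

theorem simCount_le (P T : Finset E3) : simCount P T ≤ P.card.choose 4 := by
  rw [simCount, ← Finset.card_powersetCard]
  exact Finset.card_filter_le _ _

theorem simCount_le_f {n : ℕ} {P T : Finset E3} (hP : P.card = n) (hT : IsTetra T) :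
    simCount P T ≤ f n := by
  apply le_csSup
  · refine ⟨n.choose 4, ?_⟩
    rintro k ⟨P, T, hP, -, rfl⟩
    rw [← hP]
    exact simCount_le P T
  · exact ⟨P, T, hP, hT, rfl⟩

/-- The maximum number `f(n)` of pairwise similar tetrahedra spanned by `n` points of
three-space satisfies `f(n) ≥ c n^(5/3)`. -/
theorem result : ∃ c : ℝ, 0 < c ∧ ∀ n : ℕ, 4 ≤ n → c * (n : ℝ) ^ ((5 : ℝ) / 3) ≤ (f n : ℝ) := by
  refine ⟨1 / 10 ^ 10, by positivity, ?_⟩
  intro n hn
  by_cases hbig : n < 10 ^ 6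
  · -- small n
    obtain ⟨P, hTP, hPn⟩ := Infinite.exists_superset_card_eq T0 n (by rw [isTetra_T0.1]; exact hn)
    have h1 : 1 ≤ simCount P T0 := by
      rw [simCount, Nat.one_le_iff_ne_zero, Finset.card_ne_zero]
      refine ⟨T0, ?_⟩
      simp only [Finset.mem_filter, Finset.mem_powersetCard]
      refine ⟨⟨hTP, isTetra_T0.1⟩, isTetra_T0, 1, IsometryEquiv.refl _, one_pos, ?_⟩
      ext x
      simp only [one_smul, Set.mem_image]
      constructor
      · intro hx
        exact ⟨x, hx, rfl⟩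
      · rintro ⟨y, hy, rfl⟩
        exact hy
    have h2 : 1 ≤ f n := h1.trans (simCount_le_f hPn isTetra_T0)
    have h3 : (n : ℝ) ^ ((5 : ℝ) / 3) ≤ 10 ^ 10 := by
      have hn6 : (n : ℝ) ≤ 10 ^ 6 := by exact_mod_cast hbig.le
      calc (n : ℝ) ^ ((5 : ℝ) / 3) ≤ ((10 : ℝ) ^ 6) ^ ((5 : ℝ) / 3) :=
            Real.rpow_le_rpow (by positivity) hn6 (by norm_num)
        _ = 10 ^ 10 := by
            rw [← Real.rpow_natCast, ← Real.rpow_mul (by norm_num), ← Real.rpow_natCast]
            norm_num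
    have h4 : (1 : ℝ) ≤ f n := by exact_mod_cast h2
    calc 1 / 10 ^ 10 * (n : ℝ) ^ ((5 : ℝ) / 3) ≤ 1 / 10 ^ 10 * 10 ^ 10 := by gcongr
      _ = 1 := by norm_num
      _ ≤ f n := h4
  · push Not at hbig
    -- choose the largest m with 10^6 m^6 ≤ n
    have hex : ∃ m : ℕ, n < 10 ^ 6 * (m + 1) ^ 6 := by
      refine ⟨n, ?_⟩
      have : n < (n + 1) ^ 6 := by
        calc n < n + 1 := Nat.lt_succ_self n
          _ ≤ (n + 1) ^ 6 := Nat.le_self_pow (by norm_num) _
      calc n < (n + 1) ^ 6 := this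
        _ ≤ 10 ^ 6 * (n + 1) ^ 6 := Nat.le_mul_of_pos_left _ (by norm_num)
    set m := Nat.find hex with hmdef
    have hm1 : n < 10 ^ 6 * (m + 1) ^ 6 := Nat.find_spec hex
    have hm0 : 0 < m := by
      by_contra h0
      have : m = 0 := by omega
      rw [this] at hm1
      simp at hm1
      omega
    have hm2 : 10 ^ 6 * m ^ 6 ≤ n := by
      have := Nat.find_min hex (m := m - 1) (by omega)
      push Not at this
      have e : m - 1 + 1 = m := by omega
      rwa [e] at this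
    obtain ⟨P, hTP, hPn⟩ := Infinite.exists_superset_card_eq ((box m).image emb) n
      (by rw [Finset.card_image_of_injective _ emb_inj, card_box]; exact hm2)
    have h1 := simCount_lower m hm0 P hTP
    have h2 : 125000 * m ^ 10 ≤ f n := h1.trans (simCount_le_f hPn isTetra_T0)
    have h3 : (n : ℝ) ^ ((5 : ℝ) / 3) ≤ (20 * m : ℝ) ^ 10 := by
      have hn6 : (n : ℝ) ≤ (20 * m : ℝ) ^ 6 := by
        have : n ≤ (20 * m) ^ 6 := by
          calc n ≤ 10 ^ 6 * (m + 1) ^ 6 := hm1.le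
            _ ≤ 10 ^ 6 * (2 * m) ^ 6 := by gcongr; omega
            _ = (20 * m) ^ 6 := by ring
        exact_mod_cast this
      calc (n : ℝ) ^ ((5 : ℝ) / 3) ≤ ((20 * m : ℝ) ^ 6) ^ ((5 : ℝ) / 3) :=
            Real.rpow_le_rpow (by positivity) hn6 (by norm_num)
        _ = (20 * m : ℝ) ^ 10 := by
            rw [← Real.rpow_natCast, ← Real.rpow_mul (by positivity), ← Real.rpow_natCast]
            norm_num
    have h4 : (125000 * (m : ℝ) ^ 10) ≤ f n := by exact_mod_cast h2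
    calc 1 / 10 ^ 10 * (n : ℝ) ^ ((5 : ℝ) / 3) ≤ 1 / 10 ^ 10 * (20 * m : ℝ) ^ 10 := by gcongr
      _ = 1024 * (m : ℝ) ^ 10 := by ring
      _ ≤ 125000 * (m : ℝ) ^ 10 := by gcongr; norm_num
      _ ≤ f n := h4

end Pool.Agent.Results.MP_36f34d_co.LowerFiveThirds
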